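import Mathlib

/-!
# MP_c7af3c_ag, T2: rationality of invariant subspaces (used by ENDA)
`K` is an algebraically closed subfield of `F`, `Mon` a monoid of `r x r` matrices over `F` with traces in `K`. There are
vectors (rows) `τ 0, .., τ (ρ - 1)`, `ρ ≥ 1`, independent over `F`, whose span over `K` is stable under `Mon`.
-/

set_option autoImplicit false

namespace Pool.Agent.T2.H9

open Matrix

section nilp

variable {F : Type*} [Field F] {r : ℕ}

theorem vecMul_aeval (y : Matrix (Fin r) (Fin r) F) (u : Fin r → F) (h : u ᵥ* y = u) (p : Polynomial F) :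
    u ᵥ* (Polynomial.aeval y p) = p.eval 1 • u := by
  induction p using Polynomial.induction_on' with
  | add p q hp hq => rw [map_add, vecMul_add, hp, hq, Polynomial.eval_add, add_smul]
  | monomial n c =>
    have h1 : ∀ n : ℕ, u ᵥ* (y ^ n) = u := by
      intro n
      induction n with
      | zero => rw [pow_zero, vecMul_one]
      | succ n ih => rw [pow_succ, ← vecMul_vecMul, ih, h]
    rw [Polynomial.aeval_monomial, Polynomial.eval_monomial, one_pow, mul_one, Algebra.algebraMap_eq_smul_one,
      smul_mul_assoc, one_mul, vecMul_smul, h1]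

theorem trace_aeval_mul_X (y : Matrix (Fin r) (Fin r) F) (ht : ∀ n : ℕ, Matrix.trace (y ^ (n + 1)) = 0)
    (p : Polynomial F) : Matrix.trace (Polynomial.aeval y (p * Polynomial.X)) = 0 := by
  induction p using Polynomial.induction_on' with
  | add p q hp hq => rw [add_mul, map_add, trace_add, hp, hq, add_zero]
  | monomial n c =>
    rw [Polynomial.monomial_mul_X, Polynomial.aeval_monomial, Algebra.algebraMap_eq_smul_one, smul_mul_assoc, one_mul,
      trace_smul, ht, smul_zero]

/-- A matrix with the eigenvalue `1` has a power whose trace is not zero. -/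
theorem trace_pow_ne [CharZero F] (y : Matrix (Fin r) (Fin r) F) (u : Fin r → F) (hu : u ≠ 0)
    (h : u ᵥ* y = u) (ht : ∀ n : ℕ, Matrix.trace (y ^ (n + 1)) = 0) : False := by
  have hχ : y.charpoly ≠ 0 := y.charpoly_monic.ne_zero
  obtain ⟨q, hq, hqd⟩ := Polynomial.exists_eq_pow_rootMultiplicity_mul_and_not_dvd y.charpoly hχ 0
  set n := y.charpoly.rootMultiplicity 0 with hn
  rw [map_zero, sub_zero] at hq hqd
  have hco : IsCoprime (Polynomial.X ^ (n + 1)) q :=
    IsCoprime.pow_left (Polynomial.irreducible_X.coprime_iff_not_dvd.2 hqd)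
  obtain ⟨s, t, hst⟩ := hco
  have hχ0 : Polynomial.aeval y y.charpoly = 0 := y.aeval_self_charpoly
  have h1 : y.charpoly.eval 1 = 0 := by
    have h2 := vecMul_aeval y u h y.charpoly
    rw [hχ0, vecMul_zero] at h2
    exact (smul_eq_zero.1 h2.symm).resolve_right hu
  have hq1 : q.eval 1 = 0 := by
    rw [hq, Polynomial.eval_mul, Polynomial.eval_pow, Polynomial.eval_X, one_pow, one_mul] at h1
    exact h1
  have he1 : (s * Polynomial.X ^ (n + 1)).eval 1 = 1 := by
    have h2 := congrArg (Polynomial.eval 1) hst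
    rw [Polynomial.eval_add, Polynomial.eval_mul (p := t), hq1, mul_zero, add_zero, Polynomial.eval_one] at h2
    exact h2
  set e := Polynomial.aeval y (s * Polynomial.X ^ (n + 1)) with he
  have hte : e.trace = 0 := by
    rw [he, pow_succ, ← mul_assoc]
    exact trace_aeval_mul_X y ht _
  have hee : e * e = e := by
    have h2 : s * Polynomial.X ^ (n + 1) * (s * Polynomial.X ^ (n + 1)) =
        s * Polynomial.X ^ (n + 1) - s * t * Polynomial.X * y.charpoly := by
      rw [hq]
      have h3 : s * Polynomial.X ^ (n + 1) = 1 - t * q := by rw [← hst]; ring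
      calc s * Polynomial.X ^ (n + 1) * (s * Polynomial.X ^ (n + 1))
          = s * Polynomial.X ^ (n + 1) * (1 - t * q) := by rw [← h3]
        _ = _ := by ring
    rw [he, ← map_mul, h2, map_sub, map_mul _ (s * t * Polynomial.X), hχ0, mul_zero, sub_zero]
  have he0 : e = 0 := by
    have h2 : IsIdempotentElem (Matrix.toLin' e) := by
      show Matrix.toLin' e * Matrix.toLin' e = _
      rw [Module.End.mul_eq_comp, ← Matrix.toLin'_mul, hee]
    have h3 : LinearMap.trace F (Fin r → F) (Matrix.toLin' e) = 0 := by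
      rw [Matrix.trace_toLin'_eq, hte]
    have h4 := LinearMap.IsIdempotentElem.eq_zero_of_trace_eq_zero h2 h3
    rwa [LinearEquiv.map_eq_zero_iff] at h4
  have h5 := vecMul_aeval y u h (s * Polynomial.X ^ (n + 1))
  rw [← he, he0, vecMul_zero, he1, one_smul] at h5
  exact hu h5.symm

end nilp

section schur

variable {F : Type} [Field F] (K : Subfield F) {r : ℕ}

/-- stable subspaces over `K` -/
def Stab (Mon : Set (Matrix (Fin r) (Fin r) F)) (T : Submodule K (Fin r → F)) : Prop :=
  ∀ x ∈ Mon, ∀ w ∈ T, w ᵥ* x ∈ T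

theorem indep_of_min [IsAlgClosed K] (Mon : Set (Matrix (Fin r) (Fin r) F)) (T : Submodule K (Fin r → F))
    [FiniteDimensional K T] (hst : Stab K Mon T) (hT : T ≠ ⊥)
    (hmin : ∀ T' : Submodule K (Fin r → F), T' ≤ T → Stab K Mon T' → T' = ⊥ ∨ T' = T) :
    ∀ (n : ℕ) (c : Fin n → F), LinearIndependent K c → ∀ σ : Fin n → (Fin r → F), (∀ i, σ i ∈ T) →
      ∑ i, c i • σ i = 0 → ∀ i, σ i = 0 := by
  intro n
  induction n with
  | zero => intro c hc σ hσ h i; exact i.elim0
  | succ n ih =>
    intro c hc σ hσ h
    cases n with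
    | zero =>
      intro i
      have hi : i = 0 := Fin.ext (by omega)
      rw [Fin.sum_univ_one] at h
      rw [hi]
      exact (smul_eq_zero.1 h).resolve_left (hc.ne_zero 0)
    | succ m =>
      -- the relations
      let P : Submodule K (Fin (m + 1 + 1) → (Fin r → F)) :=
        { carrier := {σ | (∀ i, σ i ∈ T) ∧ ∑ i, c i • σ i = 0}
          zero_mem' := ⟨fun i => T.zero_mem, by simp⟩
          add_mem' := by
            rintro a b ⟨ha, ha'⟩ ⟨hb, hb'⟩
            refine ⟨fun i => T.add_mem (ha i) (hb i), ?_⟩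
            simp only [Pi.add_apply, smul_add, Finset.sum_add_distrib, ha', hb', add_zero]
          smul_mem' := by
            rintro t a ⟨ha, ha'⟩
            refine ⟨fun i => T.smul_mem t (ha i), ?_⟩
            simp only [Pi.smul_apply]
            have h1 : ∀ i, c i • t • a i = t • c i • a i := fun i => smul_comm _ _ _
            simp only [h1, ← Finset.smul_sum, ha', smul_zero] }
      let p0 : P →ₗ[K] T :=
        { toFun := fun s => ⟨s.1 0, s.2.1 0⟩
          map_add' := fun _ _ => rfl
          map_smul' := fun _ _ => rfl }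
      let p1 : P →ₗ[K] T :=
        { toFun := fun s => ⟨s.1 1, s.2.1 1⟩
          map_add' := fun _ _ => rfl
          map_smul' := fun _ _ => rfl }
      have hinj : ∀ s ∈ P, s 0 = 0 → s = 0 := by
        rintro s ⟨hs, hs'⟩ h0
        rw [Fin.sum_univ_succ, h0, smul_zero, zero_add] at hs'
        have h1 := ih (fun i => c i.succ) (hc.comp _ (Fin.succ_injective _)) (fun i => s i.succ)
          (fun i => hs _) hs'
        funext i
        refine Fin.cases h0 (fun j => ?_) i
        exact h1 j
      by_contra hne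
      push Not at hne
      obtain ⟨i0, hi0⟩ := hne
      have hσP : σ ∈ P := ⟨hσ, h⟩
      -- the projection is onto
      have hsurj : P.map (LinearMap.proj 0) = T := by
        rcases hmin (P.map (LinearMap.proj 0)) (by
            rintro _ ⟨s, hs, rfl⟩
            exact hs.1 0) (by
            rintro x hx _ ⟨s, hs, rfl⟩
            refine ⟨fun i => s i ᵥ* x, ⟨fun i => hst x hx _ (hs.1 i), ?_⟩, rfl⟩
            have h1 : ∑ i, c i • (s i ᵥ* x) = (∑ i, c i • s i) ᵥ* x := by
              rw [Matrix.sum_vecMul]
              exact Finset.sum_congr rfl fun i _ => by rw [smul_vecMul]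
            rw [h1, hs.2, zero_vecMul]) with h1 | h1
        · exfalso
          have h2 : σ 0 = 0 := by
            have h3 : (LinearMap.proj 0 : (Fin (m + 1 + 1) → (Fin r → F)) →ₗ[K] _) σ ∈
              P.map (LinearMap.proj 0) := ⟨σ, hσP, rfl⟩
            rw [h1] at h3
            exact (Submodule.mem_bot K).1 h3
          exact hi0 (congrFun (hinj σ hσP h2) i0)
        · exact h1
      have hbij : Function.Bijective p0 := by
        constructor
        · rw [← LinearMap.ker_eq_bot, LinearMap.ker_eq_bot']
          intro s hs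
          exact Subtype.ext (hinj s.1 s.2 (congrArg Subtype.val hs))
        · rintro ⟨t, ht⟩
          rw [← hsurj] at ht
          obtain ⟨s, hs, hst'⟩ := ht
          exact ⟨⟨s, hs⟩, Subtype.ext hst'⟩
      let e0 : P ≃ₗ[K] T := LinearEquiv.ofBijective p0 hbij
      have hnt : Nontrivial T := Submodule.nontrivial_iff_ne_bot.2 hT
      obtain ⟨k, hk⟩ := Module.End.exists_eigenvalue (p1.comp e0.symm.toLinearMap : Module.End K T)
      obtain ⟨t, ht⟩ := hk.exists_hasEigenvector
      have ht1 := ht.apply_eq_smul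
      have ht0 := ht.2
      set s := e0.symm t with hs
      have hs0 : s.1 0 = t := by
        have h2 : e0 s = t := by rw [hs, LinearEquiv.apply_symm_apply]
        exact congrArg Subtype.val h2
      have hs1 : s.1 1 = (k : F) • (t : Fin r → F) := congrArg Subtype.val ht1
      have hc' : LinearIndependent K (Fin.cons (c 0 + k * c 1) (fun i : Fin m => c i.succ.succ) : Fin (m + 1) → F) := by
        rw [Fintype.linearIndependent_iff]
        intro g hg
        rw [Fin.sum_univ_succ] at hg
        simp only [Fin.cons_zero, Fin.cons_succ] at hg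
        have h3 := Fintype.linearIndependent_iff.1 hc
          (Fin.cons (g 0) (Fin.cons (g 0 * k) (fun i : Fin m => g i.succ))) (by
            rw [Fin.sum_univ_succ, Fin.sum_univ_succ]
            simp only [Fin.cons_zero, Fin.cons_succ]
            rw [← hg, smul_add]
            have h4 : (g 0 * k) • c (Fin.succ 0) = g 0 • ((k : F) * c 1) := by
              rw [Fin.succ_zero_eq_one]
              show ((g 0 * k : K) : F) * c 1 = (g 0 : F) * ((k : F) * c 1)
              rw [Subfield.coe_mul, mul_assoc]
            rw [h4]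
            exact (add_assoc (g 0 • c 0) _ _).symm)
        intro i
        refine Fin.cases ?_ (fun j => ?_) i
        · simpa using h3 0
        · simpa using h3 j.succ.succ
      have h5 := ih _ hc' (Fin.cons (s.1 0) (fun i : Fin m => s.1 i.succ.succ)) (by
          intro i
          refine Fin.cases ?_ (fun j => ?_) i
          · exact s.2.1 0
          · exact s.2.1 j.succ.succ) (by
          have h6 := s.2.2
          rw [Fin.sum_univ_succ, Fin.sum_univ_succ, Fin.succ_zero_eq_one, hs1, hs0] at h6
          rw [Fin.sum_univ_succ]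
          simp only [Fin.cons_zero, Fin.cons_succ]
          rw [← h6, hs0, add_smul, smul_smul, mul_comm (c 1)]
          exact add_assoc (c 0 • (t : Fin r → F)) _ _) 0
      rw [Fin.cons_zero, hs0] at h5
      exact ht0 (Subtype.ext h5)

end schur

section exist

variable {F : Type} [Field F] (K : Subfield F) {r : ℕ}

theorem exists_fd [CharZero F] (Mon : Submonoid (Matrix (Fin r) (Fin r) F)) (hr : 0 < r)
    (htr : ∀ x ∈ Mon, x.trace ∈ K) :
    ∃ T : Submodule K (Fin r → F), T ≠ ⊥ ∧ FiniteDimensional K T ∧ Stab K (Mon : Set _) T := by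
  have hne : Nonempty (Fin r) := ⟨⟨0, hr⟩⟩
  -- a minimal invariant subspace over `F`
  obtain ⟨U, ⟨hU0, hUst⟩, hUmin⟩ := wellFounded_lt.has_min
    {U : Submodule F (Fin r → F) | U ≠ ⊥ ∧ ∀ x ∈ Mon, ∀ w ∈ U, w ᵥ* x ∈ U}
    ⟨⊤, top_ne_bot, fun _ _ _ _ => Submodule.mem_top⟩
  obtain ⟨u, huU, hu⟩ := Submodule.exists_mem_ne_zero_of_ne_bot hU0
  -- the algebras
  have hAF : Subalgebra.toSubmodule (Algebra.adjoin F (Mon : Set (Matrix (Fin r) (Fin r) F))) =
      Submodule.span F (Mon : Set _) := by
    rw [Algebra.adjoin_eq_span, Submonoid.closure_eq]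
  have hAK : Subalgebra.toSubmodule (Algebra.adjoin K (Mon : Set (Matrix (Fin r) (Fin r) F))) =
      Submodule.span K (Mon : Set _) := by
    rw [Algebra.adjoin_eq_span, Submonoid.closure_eq]
  set A := Algebra.adjoin F (Mon : Set (Matrix (Fin r) (Fin r) F)) with hA
  set L := Algebra.adjoin K (Mon : Set (Matrix (Fin r) (Fin r) F)) with hL
  have hLmem : ∀ x, x ∈ L ↔ x ∈ Submodule.span K (Mon : Set (Matrix (Fin r) (Fin r) F)) := fun x => by
    rw [← hAK]; rfl
  have hAmem : ∀ x, x ∈ A ↔ x ∈ Submodule.span F (Mon : Set (Matrix (Fin r) (Fin r) F)) := fun x => by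
    rw [← hAF]; rfl
  have hLA : ∀ x ∈ L, x ∈ A := by
    intro x hx
    rw [hLmem] at hx
    rw [hAmem]
    induction hx using Submodule.span_induction with
    | mem y hy => exact Submodule.subset_span hy
    | zero => exact Submodule.zero_mem _
    | add y z _ _ h1 h2 => exact Submodule.add_mem _ h1 h2
    | smul c y _ h1 => exact Submodule.smul_mem _ (c : F) h1
  have htrL : ∀ x ∈ L, x.trace ∈ K := by
    intro x hx
    rw [hLmem] at hx
    induction hx using Submodule.span_induction with
    | mem y hy => exact htr y hy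
    | zero => rw [trace_zero]; exact K.zero_mem
    | add y z _ _ h1 h2 => rw [trace_add]; exact K.add_mem h1 h2
    | smul c y _ h1 => rw [trace_smul]; exact K.mul_mem c.2 h1
  obtain ⟨b, hbM, hbs, hbi⟩ := exists_linearIndependent F (Mon : Set (Matrix (Fin r) (Fin r) F))
  have hbf : Finite b := hbi.setFinite
  have hbL : ∀ z ∈ b, z ∈ L := fun z hz => Algebra.subset_adjoin (hbM hz)
  let Φ : (Subalgebra.toSubmodule L) →ₗ[K] (b → K) :=
    { toFun := fun x z => ⟨(x.1 * z.1).trace, htrL _ (L.mul_mem x.2 (hbL _ z.2))⟩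
      map_add' := fun x y => by
        funext z
        apply Subtype.ext
        show ((x.1 + y.1) * z.1).trace = (x.1 * z.1).trace + (y.1 * z.1).trace
        rw [add_mul, trace_add]
      map_smul' := fun c x => by
        funext z
        apply Subtype.ext
        show ((c • x.1) * z.1).trace = (c : F) * (x.1 * z.1).trace
        rw [smul_mul_assoc, trace_smul]
        rfl }
  let ψ : (Subalgebra.toSubmodule L) →ₗ[K] (Fin r → F) :=
    { toFun := fun x => u ᵥ* x.1
      map_add' := fun x y => by
        show u ᵥ* (x.1 + y.1) = _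
        rw [vecMul_add]
      map_smul' := fun c x => by
        show u ᵥ* (c • x.1) = c • (u ᵥ* x.1)
        rw [vecMul_smul] }
  have hker : LinearMap.ker Φ ≤ LinearMap.ker ψ := by
    intro x hx
    rw [LinearMap.mem_ker] at hx ⊢
    by_contra hv
    change u ᵥ* x.1 ≠ 0 at hv
    have hx0 : ∀ z ∈ A, (x.1 * z).trace = 0 := by
      intro z hz
      rw [hAmem, ← hbs] at hz
      induction hz using Submodule.span_induction with
      | mem y hy => exact congrArg Subtype.val (congrFun hx ⟨y, hy⟩)
      | zero => rw [mul_zero, trace_zero]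
      | add y z _ _ h1 h2 => rw [mul_add, trace_add, h1, h2, add_zero]
      | smul c y _ h1 => rw [mul_smul_comm, trace_smul, h1, smul_zero]
    have hUA : ∀ z ∈ A, ∀ w ∈ U, w ᵥ* z ∈ U := by
      intro z hz w hw
      rw [hAmem] at hz
      induction hz using Submodule.span_induction with
      | mem y hy => exact hUst y hy w hw
      | zero => rw [vecMul_zero]; exact U.zero_mem
      | add y z _ _ h1 h2 => rw [vecMul_add]; exact U.add_mem h1 h2
      | smul c y _ h1 => rw [vecMul_smul]; exact U.smul_mem c h1
    let ev : Matrix (Fin r) (Fin r) F →ₗ[F] (Fin r → F) :=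
      { toFun := fun z => (u ᵥ* x.1) ᵥ* z
        map_add' := fun y z => vecMul_add _ _ _
        map_smul' := fun c z => vecMul_smul _ _ _ }
    have hV : (Subalgebra.toSubmodule A).map ev = U := by
      have hle : (Subalgebra.toSubmodule A).map ev ≤ U := by
        rintro _ ⟨z, hz, rfl⟩
        exact hUA z hz _ (hUA x.1 (hLA _ x.2) u huU)
      refine eq_of_le_of_not_lt hle (hUmin _ ⟨?_, ?_⟩)
      · intro h0
        have h1 : ev 1 ∈ (Subalgebra.toSubmodule A).map ev := ⟨1, A.one_mem, rfl⟩
        rw [h0, Submodule.mem_bot] at h1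
        exact hv (by rw [← vecMul_one (u ᵥ* x.1)]; exact h1)
      · rintro m hm _ ⟨z, hz, rfl⟩
        refine ⟨z * m, A.mul_mem hz (Algebra.subset_adjoin hm), ?_⟩
        exact (vecMul_vecMul (u ᵥ* x.1) z m).symm
    have huV : u ∈ (Subalgebra.toSubmodule A).map ev := by rw [hV]; exact huU
    obtain ⟨z, hz, hzu⟩ := huV
    have hz1 : u ᵥ* (x.1 * z) = u := by
      rw [← vecMul_vecMul]
      exact hzu
    refine trace_pow_ne (x.1 * z) u hu hz1 fun n => ?_
    have hy : x.1 * z ∈ A := A.mul_mem (hLA _ x.2) hz
    rw [pow_succ', mul_assoc]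
    exact hx0 _ (A.mul_mem hz (A.pow_mem hy n))
  have hfin : Module.Finite K ((Subalgebra.toSubmodule L) ⧸ LinearMap.ker Φ) :=
    Module.Finite.equiv Φ.quotKerEquivRange.symm
  have hfr : Module.Finite K (LinearMap.range ((LinearMap.ker Φ).liftQ ψ hker)) := inferInstance
  rw [Submodule.range_liftQ] at hfr
  refine ⟨LinearMap.range ψ, ?_, hfr, ?_⟩
  · intro h0
    have h1 : ψ ⟨1, L.one_mem⟩ ∈ LinearMap.range ψ := ⟨_, rfl⟩
    rw [h0, Submodule.mem_bot] at h1
    exact hu (by rw [← vecMul_one u]; exact h1)
  · rintro m hm _ ⟨x, rfl⟩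
    refine ⟨⟨x.1 * m, L.mul_mem x.2 (Algebra.subset_adjoin hm)⟩, ?_⟩
    exact (vecMul_vecMul u x.1 m).symm

/-- The rational structure. -/
theorem exists_rat [CharZero F] [IsAlgClosed K] (Mon : Submonoid (Matrix (Fin r) (Fin r) F)) (hr : 0 < r)
    (htr : ∀ x ∈ Mon, x.trace ∈ K) :
    ∃ (ρ : ℕ) (τ : Fin ρ → Fin r → F), 0 < ρ ∧ LinearIndependent F τ ∧
      ∀ x ∈ Mon, ∀ i, ∃ c : Fin ρ → K, τ i ᵥ* x = ∑ j, (c j : F) • τ j := by
  obtain ⟨T1, hT1, hf1, hs1⟩ := exists_fd K Mon hr htr
  -- a stable space of minimal dimension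
  have hex : ∃ n, ∃ T : Submodule K (Fin r → F), T ≠ ⊥ ∧ FiniteDimensional K T ∧ Stab K (Mon : Set _) T ∧
      Module.finrank K T = n := ⟨_, T1, hT1, hf1, hs1, rfl⟩
  classical
  obtain ⟨T, hT, hf, hst, hn⟩ := Nat.find_spec hex
  have hmin : ∀ T' : Submodule K (Fin r → F), T' ≤ T → Stab K (Mon : Set _) T' → T' = ⊥ ∨ T' = T := by
    intro T' hle hs'
    by_cases h0 : T' = ⊥
    · exact Or.inl h0
    · right
      have hf' : FiniteDimensional K T' := Submodule.finiteDimensional_of_le hle
      have h1 : Nat.find hex ≤ Module.finrank K T' := Nat.find_min' hex ⟨T', h0, hf', hs', rfl⟩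
      exact Submodule.eq_of_le_of_finrank_le hle (by rw [hn]; exact h1)
  have hind := indep_of_min K (Mon : Set _) T hst hT hmin
  let B := Module.finBasis K T
  refine ⟨Module.finrank K T, fun i => (B i : Fin r → F), ?_, ?_, ?_⟩
  · have hnt : Nontrivial T := Submodule.nontrivial_iff_ne_bot.2 hT
    exact Module.finrank_pos
  · rw [Fintype.linearIndependent_iff]
    intro d hd
    -- coordinates over `K`
    let E : Submodule K F := Submodule.span K (Set.range d)
    have hE : FiniteDimensional K E := FiniteDimensional.span_of_finite K (Set.finite_range d)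
    let Cb := Module.finBasis K E
    let δ : Fin (Module.finrank K T) → E := fun i => ⟨d i, Submodule.subset_span ⟨i, rfl⟩⟩
    have hδ : ∀ j, d j = ∑ i, Cb.repr (δ j) i • (Cb i : F) := by
      intro j
      have h1 := Cb.sum_repr (δ j)
      have h2 := congrArg (fun y : E => (y : F)) h1
      simp only [AddSubmonoidClass.coe_finsetSum, SetLike.val_smul] at h2
      exact h2.symm
    have hCb : LinearIndependent K (fun i => (Cb i : F)) :=
      Cb.linearIndependent.map' E.subtype (Submodule.ker_subtype E)
    have h3 := hind _ (fun i => (Cb i : F)) hCb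
      (fun i => ∑ j, Cb.repr (δ j) i • (B j : Fin r → F)) (fun i => by
        refine T.sum_mem fun j _ => T.smul_mem _ (B j).2) (by
        rw [← hd]
        simp only [Finset.smul_sum]
        rw [Finset.sum_comm]
        refine Finset.sum_congr rfl fun j _ => ?_
        rw [hδ j, Finset.sum_smul]
        refine Finset.sum_congr rfl fun i _ => ?_
        rw [smul_comm, ← smul_assoc])
    have hBT : LinearIndependent K (fun i => (B i : Fin r → F)) :=
      B.linearIndependent.map' T.subtype (Submodule.ker_subtype T)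
    intro j
    rw [hδ j]
    refine Finset.sum_eq_zero fun i _ => ?_
    rw [Fintype.linearIndependent_iff.1 hBT _ (h3 i) j, zero_smul]
  · intro x hx i
    have h1 : (B i : Fin r → F) ᵥ* x ∈ T := hst x hx _ (B i).2
    refine ⟨fun j => B.repr ⟨_, h1⟩ j, ?_⟩
    have h2 := congrArg (fun y : T => (y : Fin r → F)) (B.sum_repr ⟨_, h1⟩)
    simp only [AddSubmonoidClass.coe_finsetSum, SetLike.val_smul] at h2
    exact h2.symm

end exist

end Pool.Agent.T2.H9
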