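import Pool.Agent.Lib.MP_c7af3c_ag.T2.Iface
import Pool.Agent.Lib.MP_c7af3c_ag.T2.H9.Rat

/-!
# MP_c7af3c_ag, T2: module ENDA
There are rows `τ`, independent over `Ω`, whose span over `K` is stable under the `a A`, `A` over `K` (Rat.lean). If there
are less than `r` of them, some form over `K` contradicts `eqv`. So all `a A` are rational in a suitable basis, and the
inclusion of the linear forms which vanish at `y` is `∑ u_l ι_l` with `ι_l` over `K`; the minors of the `ι_l` kill
everything, so they vanish at `y` by `ann`.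
-/

set_option autoImplicit false

namespace Pool.Agent.T2.H9

open MvPolynomial Matrix

section lin

variable {Ω : Type} [Field Ω]

/-- a linear map which kills the monomials of degree `d` kills the forms of degree `d` -/
theorem hom_ind {σ V : Type} [AddCommGroup V] [Module Ω V] (φ : MvPolynomial σ Ω →ₗ[Ω] V) (d : ℕ)
    (h : ∀ I : σ →₀ ℕ, I.degree = d → φ (monomial I 1) = 0) (A : MvPolynomial σ Ω)
    (hA : A.IsHomogeneous d) : φ A = 0 := by
  rw [A.as_sum, map_sum]
  refine Finset.sum_eq_zero fun I hI => ?_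
  have h1 : (monomial I (coeff I A) : MvPolynomial σ Ω) = coeff I A • monomial I 1 := by
    rw [smul_monomial, smul_eq_mul, mul_one]
  have h2 : I.degree = d := by
    by_contra hne
    exact (mem_support_iff.1 hI) (hA.coeff_eq_zero hne)
  rw [h1, map_smul, h I h2, smul_zero]

theorem lnf_hom {σ : Type} [Fintype σ] (b : σ → Ω) : (lnf b).IsHomogeneous 1 := by
  unfold lnf
  refine IsHomogeneous.sum _ _ _ fun i _ => ?_
  have h := (isHomogeneous_C σ (b i)).mul (isHomogeneous_X Ω i)
  rwa [zero_add] at h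

theorem eval_lnf {σ : Type} [Fintype σ] (b y : σ → Ω) : eval y (lnf b) = ∑ i, b i * y i := by
  unfold lnf
  rw [map_sum]
  exact Finset.sum_congr rfl fun i _ => by rw [map_mul, eval_C, eval_X]

theorem coeff_lnf_mem {σ : Type} [Fintype σ] (K : Subfield Ω) (b : σ → Ω) (hb : ∀ i, b i ∈ K) (I : σ →₀ ℕ) :
    coeff I (lnf b) ∈ K := by
  classical
  unfold lnf
  rw [coeff_sum]
  refine K.sum_mem fun i _ => ?_
  rw [coeff_C_mul, coeff_X]
  refine K.mul_mem (hb i) ?_
  split_ifs
  · exact K.one_mem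
  · exact K.zero_mem

theorem coeff_mul_mem {σ : Type} (K : Subfield Ω) {p q : MvPolynomial σ Ω} (hp : ∀ I, coeff I p ∈ K)
    (hq : ∀ I, coeff I q ∈ K) (I : σ →₀ ℕ) : coeff I (p * q) ∈ K := by
  classical
  rw [coeff_mul]
  exact K.sum_mem fun x _ => K.mul_mem (hp _) (hq _)

/-- `lnf b * C` as a combination. -/
theorem lnf_mul {σ : Type} [Fintype σ] (b : σ → Ω) (p : MvPolynomial σ Ω) :
    lnf b * p = ∑ i, b i • (X i * p) := by
  unfold lnf
  rw [Finset.sum_mul]
  exact Finset.sum_congr rfl fun i _ => by rw [mul_assoc, C_mul']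

/-- finitely many elements as combinations over `K`, by functionals -/
theorem decomp (K : Subfield Ω) {J : Type} [Fintype J] (z : J → Ω) :
    ∃ (N : ℕ) (u : Fin N → Ω) (φ : Fin N → (Ω →ₗ[K] K)), ∀ j, z j = ∑ l, u l * (φ l (z j) : Ω) := by
  classical
  let B := Module.Free.chooseBasis K Ω
  let s : Finset (Module.Free.ChooseBasisIndex K Ω) := Finset.univ.biUnion fun j => (B.repr (z j)).support
  refine ⟨s.card, fun l => B (s.equivFin.symm l), fun l => B.coord (s.equivFin.symm l), fun j => ?_⟩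
  have h1 := B.linearCombination_repr (z j)
  have hs : (B.repr (z j)).support ⊆ s := fun i hi => Finset.mem_biUnion.2 ⟨j, Finset.mem_univ _, hi⟩
  rw [Finsupp.linearCombination_apply, Finsupp.sum_of_support_subset _ hs (fun i a => a • B i)
    (fun i _ => zero_smul _ _)] at h1
  have h2 : ∑ i ∈ s, (B.repr (z j)) i • B i = ∑ l : Fin s.card, B (s.equivFin.symm l) *
      (B.coord (s.equivFin.symm l) (z j) : Ω) := by
    rw [← Finset.sum_coe_sort, ← Equiv.sum_comp s.equivFin.symm]
    refine Finset.sum_congr rfl fun l _ => ?_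
    rw [Module.Basis.coord_apply, mul_comm]
    rfl
  exact h1.symm.trans h2

end lin

section core

variable {Ω : Type} [Field Ω] {r : ℕ} (y : Fin (r + 1) → Ω)

/-- the coefficients of the form `∑ c_i l_i`, `l_i = X_(i+1) - y_(i+1) X_0` -/
def evec (c : Fin r → Ω) : Fin (r + 1) → Ω := Fin.cons (-∑ i, c i * y i.succ) c

theorem lnf_evec (c : Fin r → Ω) :
    lnf (evec y c) = ∑ i, c i • (X i.succ - C (y i.succ) * X 0 : MvPolynomial (Fin (r + 1)) Ω) := by
  unfold lnf evec
  rw [Fin.sum_univ_succ]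
  simp only [Fin.cons_zero, Fin.cons_succ, map_neg, map_sum, map_mul, smul_sub, Finset.sum_sub_distrib, smul_eq_C_mul]
  rw [neg_mul, Finset.sum_mul]
  simp only [mul_assoc]
  ring

theorem sum_evec (h0 : y 0 = 1) (c : Fin r → Ω) : ∑ j, evec y c j * y j = 0 := by
  unfold evec
  rw [Fin.sum_univ_succ]
  simp only [Fin.cons_zero, Fin.cons_succ, h0, mul_one]
  ring

variable {y} {K : Subfield Ω} {a : MvPolynomial (Fin (r + 1)) Ω →ₗ[Ω] Matrix (Fin r) (Fin r) Ω}

theorem comm_ext (h : CoreA K y a) (c c' : Fin r → Ω) (p : MvPolynomial (Fin (r + 1)) Ω) (hp : p.IsHomogeneous 4) :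
    a (lnf (evec y c) * p) *ᵥ c' = a (lnf (evec y c') * p) *ᵥ c := by
  have h1 : ∀ c c' : Fin r → Ω, a (lnf (evec y c) * p) *ᵥ c' = fun m => ∑ i, ∑ j, c i * c' j *
      a ((X i.succ - C (y i.succ) * X 0) * p) m j := by
    intro c c'
    funext m
    rw [lnf_evec, Finset.sum_mul, map_sum, Matrix.sum_mulVec, Finset.sum_apply]
    refine Finset.sum_congr rfl fun i _ => ?_
    rw [smul_mul_assoc, map_smul, Matrix.smul_mulVec, Pi.smul_apply, smul_eq_mul, Matrix.mulVec, dotProduct,
      Finset.mul_sum]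
    exact Finset.sum_congr rfl fun j _ => by ring
  rw [h1, h1]
  funext m
  rw [Finset.sum_comm]
  refine Finset.sum_congr rfl fun j _ => Finset.sum_congr rfl fun i _ => ?_
  rw [h.comm p hp i j m]
  ring

/-- traces of the monoid generated by the `a A` -/
theorem trace_mem (h : CoreA K y a) :
    ∀ x ∈ Submonoid.closure {m | ∃ A, Fk K 5 A ∧ m = a A}, x.trace ∈ K := by
  intro x hx
  have h1 : ∃ l : List (MvPolynomial (Fin (r + 1)) Ω), (∀ A ∈ l, Fk K 5 A) ∧ (l.map a).prod = x := by
    induction hx using Submonoid.closure_induction with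
    | mem z hz =>
      obtain ⟨A, hA, rfl⟩ := hz
      exact ⟨[A], by simpa using hA, by simp⟩
    | one => exact ⟨[], by simp, by simp⟩
    | mul u v _ _ hu hv =>
      obtain ⟨l1, h1, rfl⟩ := hu
      obtain ⟨l2, h2, rfl⟩ := hv
      refine ⟨l1 ++ l2, ?_, by simp⟩
      intro A hA
      rcases List.mem_append.1 hA with h3 | h3
      · exact h1 A h3
      · exact h2 A h3
  obtain ⟨l, hl, rfl⟩ := h1
  exact h.word l hl

/-- monomials of degree 5 are over `K` -/
theorem fk_mono (J : Fin (r + 1) →₀ ℕ) (hJ : J.degree = 4) (j : Fin (r + 1)) :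
    Fk K 5 (X j * monomial J (1 : Ω)) := by
  classical
  refine ⟨?_, coeff_mul_mem K (fun I => ?_) (fun I => ?_)⟩
  · have h1 := (isHomogeneous_X Ω j).mul (isHomogeneous_monomial (R := Ω) 1 hJ)
    exact h1
  · rw [coeff_X]
    split_ifs
    · exact K.one_mem
    · exact K.zero_mem
  · rw [coeff_monomial]
    split_ifs
    · exact K.one_mem
    · exact K.zero_mem

end core

theorem enda : EndaStatement := by
  intro Ω _ _ _ K hK r y a hr h
  classical
  -- rational rows
  obtain ⟨ρ, τ, hρ, hτ, hst⟩ := exists_rat K (Submonoid.closure {m | ∃ A, Fk K 5 A ∧ m = a A}) hr (trace_mem h)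
  have hrow : ∀ A, Fk K 5 A → ∀ k, ∃ c : Fin ρ → K, τ k ᵥ* a A = ∑ j, (c j : Ω) • τ j :=
    fun A hA k => hst _ (Submonoid.subset_closure ⟨A, hA, rfl⟩) k
  have hmono : ∀ I : Fin (r + 1) →₀ ℕ, I.degree = 5 → Fk K 5 (monomial I (1 : Ω)) := by
    intro I hI
    refine ⟨isHomogeneous_monomial 1 hI, fun I' => ?_⟩
    rw [coeff_monomial]
    split_ifs
    · exact K.one_mem
    · exact K.zero_mem
  -- the span is stable under all forms
  have hspan : ∀ A : MvPolynomial (Fin (r + 1)) Ω, A.IsHomogeneous 5 → ∀ k,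
      τ k ᵥ* a A ∈ Submodule.span Ω (Set.range τ) := by
    intro A hA k
    let φ : MvPolynomial (Fin (r + 1)) Ω →ₗ[Ω] ((Fin r → Ω) ⧸ Submodule.span Ω (Set.range τ)) :=
      (Submodule.span Ω (Set.range τ)).mkQ.comp
        ({ toFun := fun A => τ k ᵥ* a A
           map_add' := fun p q => by rw [map_add, vecMul_add]
           map_smul' := fun c p => by rw [map_smul, vecMul_smul]; rfl } :
          MvPolynomial (Fin (r + 1)) Ω →ₗ[Ω] (Fin r → Ω))
    have h1 : φ A = 0 := hom_ind φ 5 (fun I hI => by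
      obtain ⟨c, hc⟩ := hrow _ (hmono I hI) k
      show (Submodule.span Ω (Set.range τ)).mkQ (τ k ᵥ* a (monomial I 1)) = 0
      rw [Submodule.mkQ_apply, Submodule.Quotient.mk_eq_zero, hc]
      exact Submodule.sum_mem _ fun j _ => Submodule.smul_mem _ _ (Submodule.subset_span ⟨j, rfl⟩)) A hA
    exact (Submodule.Quotient.mk_eq_zero _).1 h1
  -- there are at least `r` of them
  have hle : ρ ≤ r := by
    have := hτ.fintype_card_le_finrank
    simpa using this
  have hρr : ρ = r := by
    by_contra hne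
    have hlt : ρ < r := lt_of_le_of_ne hle hne
    have h1 : LinearMap.ker (Matrix.mulVecLin (Matrix.of τ)) ≠ ⊥ := by
      apply LinearMap.ker_ne_bot_of_finrank_lt
      simpa using hlt
    obtain ⟨c, hc, hc0⟩ := Submodule.exists_mem_ne_zero_of_ne_bot h1
    have hc1 : ∀ k, τ k ⬝ᵥ c = 0 := fun k => congrFun (LinearMap.mem_ker.1 hc) k
    have hc2 : ∀ v ∈ Submodule.span Ω (Set.range τ), v ⬝ᵥ c = 0 := by
      intro v hv
      induction hv using Submodule.span_induction with
      | mem x hx => obtain ⟨k, rfl⟩ := hx; exact hc1 k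
      | zero => rw [zero_dotProduct]
      | add u v _ _ hu hv => rw [add_dotProduct, hu, hv, add_zero]
      | smul t u _ hu => rw [smul_dotProduct, hu, smul_zero]
    set lam := evec y c with hlam
    have hkill : ∀ p : MvPolynomial (Fin (r + 1)) Ω, p.IsHomogeneous 4 → ∀ k, τ k ᵥ* a (lnf lam * p) = 0 := by
      intro p hp k
      funext j
      have h2 : (τ k ᵥ* a (lnf lam * p)) j = τ k ⬝ᵥ (a (lnf lam * p) *ᵥ Pi.single j 1) := by
        rw [dotProduct_mulVec, dotProduct_single, mul_one]
      rw [h2, comm_ext h c (Pi.single j 1) p hp, dotProduct_mulVec]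
      refine hc2 _ (hspan _ ?_ k)
      exact (lnf_hom _).mul hp
    have hlam0 : ∃ j, lam j ≠ 0 := by
      obtain ⟨i, hi⟩ := Function.ne_iff.1 hc0
      exact ⟨i.succ, by rw [hlam]; exact hi⟩
    obtain ⟨j0, hj0⟩ := hlam0
    obtain ⟨φ, hφ⟩ : ∃ φ : Module.Dual K Ω, φ (lam j0) ≠ 0 := by
      by_contra hcon
      push Not at hcon
      exact hj0 ((Module.forall_dual_apply_eq_zero_iff K (lam j0)).1 hcon)
    -- the rational form
    set b : Fin (r + 1) → Ω := fun j => (φ (lam j) : Ω) with hb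
    have hb0 : b ≠ 0 := by
      intro h0
      exact hφ (Subtype.ext (congrFun h0 j0))
    have hk0 : τ ⟨0, hρ⟩ = 0 := by
      refine h.eqv b (fun i => (φ (lam i)).2) hb0 (τ ⟨0, hρ⟩) ?_
      intro p hp j
      have h3 : τ ⟨0, hρ⟩ ᵥ* a (lnf b * p) = 0 := by
        let ψ : MvPolynomial (Fin (r + 1)) Ω →ₗ[Ω] (Fin r → Ω) :=
          { toFun := fun p => τ ⟨0, hρ⟩ ᵥ* a (lnf b * p)
            map_add' := fun p q => by rw [mul_add, map_add, vecMul_add]
            map_smul' := fun c p => by rw [mul_smul_comm, map_smul, vecMul_smul]; rfl }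
        refine hom_ind ψ 4 (fun J hJ => ?_) p hp
        show τ ⟨0, hρ⟩ ᵥ* a (lnf b * monomial J 1) = 0
        choose κ hκ using fun j => hrow _ (fk_mono (K := K) J hJ j) ⟨0, hρ⟩
        have h4 : ∀ z : Fin (r + 1) → Ω, τ ⟨0, hρ⟩ ᵥ* a (lnf z * monomial J 1) =
            ∑ m, (∑ j, z j * (κ j m : Ω)) • τ m := by
          intro z
          rw [lnf_mul, map_sum, Matrix.vecMul_sum]
          simp only [map_smul, vecMul_smul, hκ, Finset.smul_sum, Finset.sum_smul, smul_smul]
          rw [Finset.sum_comm]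
        have h5 := hkill (monomial J 1) (isHomogeneous_monomial 1 hJ) ⟨0, hρ⟩
        rw [h4] at h5 ⊢
        have h6 := Fintype.linearIndependent_iff.1 hτ _ h5
        refine Finset.sum_eq_zero fun m _ => ?_
        have h7 : ∑ j, b j * (κ j m : Ω) = 0 := by
          have h8 := congrArg (fun z => (φ z : Ω)) (h6 m)
          simp only [map_sum, map_zero] at h8
          have h9 : ∀ j, φ (lam j * (κ j m : Ω)) = φ (lam j) * κ j m := by
            intro j
            have h10 : lam j * (κ j m : Ω) = κ j m • lam j := by rw [mul_comm]; rfl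
            rw [h10, map_smul, smul_eq_mul, mul_comm]
          simp only [h9] at h8
          have h11 : ((∑ j, φ (lam j) * κ j m : K) : Ω) = ∑ j, b j * (κ j m : Ω) := by
            push_cast
            rfl
          rw [← h11]
          exact h8
        rw [h7, zero_smul]
      exact congrFun h3 j
    exact hτ.ne_zero _ hk0
  subst hρr
  -- the basis
  set G : Matrix (Fin ρ) (Fin ρ) Ω := Matrix.of τ with hG
  have hGu : IsUnit G := Matrix.linearIndependent_rows_iff_isUnit.1 hτ
  have hGd : IsUnit G.det := (Matrix.isUnit_iff_isUnit_det G).1 hGu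
  have hGG : G * G⁻¹ = 1 := Matrix.mul_nonsing_inv G hGd
  have hGG' : G⁻¹ * G = 1 := Matrix.nonsing_inv_mul G hGd
  -- the entries in the new basis
  let f : Fin ρ → Fin ρ → MvPolynomial (Fin (ρ + 1)) Ω →ₗ[Ω] Ω := fun k e =>
    { toFun := fun A => (G * a A * G⁻¹) k e
      map_add' := fun p q => by rw [map_add, mul_add, add_mul, Matrix.add_apply]
      map_smul' := fun c p => by
        rw [map_smul, mul_smul_comm, smul_mul_assoc, Matrix.smul_apply]; rfl }
  have hf : ∀ k e A, f k e A = τ k ⬝ᵥ (a A *ᵥ fun i => G⁻¹ i e) := by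
    intro k e A
    show (G * a A * G⁻¹) k e = _
    rw [mul_assoc, Matrix.mul_apply']
    congr 1
  have hdual : ∀ k e, τ k ⬝ᵥ (fun i => G⁻¹ i e) = if k = e then 1 else 0 := by
    intro k e
    have h1 := congrFun (congrFun hGG k) e
    rw [Matrix.one_apply] at h1
    exact h1
  have hfK : ∀ k e A, Fk K 5 A → f k e A ∈ K := by
    intro k e A hA
    obtain ⟨c, hc⟩ := hrow A hA k
    rw [hf, dotProduct_mulVec, hc, sum_dotProduct]
    refine K.sum_mem fun j _ => ?_
    rw [smul_dotProduct, hdual, smul_eq_mul]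
    refine K.mul_mem (c j).2 ?_
    split_ifs
    · exact K.one_mem
    · exact K.zero_mem
  -- the forms
  set E : Fin ρ → Fin (ρ + 1) → Ω := fun e => evec y fun i => G⁻¹ i e with hE
  have hrel : ∀ k e e' (p : MvPolynomial (Fin (ρ + 1)) Ω), p.IsHomogeneous 4 →
      f k e' (lnf (E e) * p) = f k e (lnf (E e') * p) := by
    intro k e e' p hp
    rw [hf, hf, hE, comm_ext h _ _ p hp]
  obtain ⟨N, u, φ, hφ⟩ := decomp K (fun q : Fin ρ × Fin (ρ + 1) => E q.1 q.2)
  set ι : Fin N → Fin ρ → Fin (ρ + 1) → Ω := fun l e j => (φ l (E e j) : Ω) with hι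
  have hιE : ∀ e j, E e j = ∑ l, u l * ι l e j := fun e j => hφ (e, j)
  have hιK : ∀ l e j, ι l e j ∈ K := fun l e j => (φ l (E e j)).2
  -- the relations for each `ι l`
  have hrl : ∀ l k e e' (p : MvPolynomial (Fin (ρ + 1)) Ω), p.IsHomogeneous 4 →
      f k e' (lnf (ι l e) * p) = f k e (lnf (ι l e') * p) := by
    intro l k e e' p hp
    let ψ : MvPolynomial (Fin (ρ + 1)) Ω →ₗ[Ω] Ω :=
      { toFun := fun p => f k e' (lnf (ι l e) * p) - f k e (lnf (ι l e') * p)
        map_add' := fun p q => by rw [mul_add, mul_add, map_add, map_add]; ring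
        map_smul' := fun c p => by
          rw [mul_smul_comm, mul_smul_comm, map_smul, map_smul, RingHom.id_apply, smul_sub] }
    refine sub_eq_zero.1 (hom_ind ψ 4 (fun J hJ => ?_) p hp)
    show f k e' (lnf (ι l e) * monomial J 1) - f k e (lnf (ι l e') * monomial J 1) = 0
    have h4 : ∀ (z : Fin (ρ + 1) → Ω) (e : Fin ρ), f k e (lnf z * monomial J 1) =
        ∑ j, z j * f k e (X j * monomial J 1) := by
      intro z e
      rw [lnf_mul, map_sum]
      exact Finset.sum_congr rfl fun j _ => by rw [map_smul, smul_eq_mul]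
    have h5 := hrel k e e' (monomial J 1) (isHomogeneous_monomial 1 hJ)
    rw [h4, h4] at h5
    rw [h4, h4, sub_eq_zero]
    have h6 : ∀ (e e' : Fin ρ), (φ l (∑ j, E e j * f k e' (X j * monomial J 1)) : Ω) =
        ∑ j, ι l e j * f k e' (X j * monomial J 1) := by
      intro e e'
      rw [map_sum]
      push_cast
      refine Finset.sum_congr rfl fun j _ => ?_
      have h7 : E e j * f k e' (X j * monomial J 1) =
          (⟨_, hfK k e' _ (fk_mono (K := K) J hJ j)⟩ : K) • E e j := by
        rw [mul_comm]; rfl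
      rw [h7, map_smul, smul_eq_mul, Subfield.coe_mul, mul_comm]
    rw [← h6, ← h6, h5]
  refine ⟨N, ι, u, hιK, ?_, ?_, ?_⟩
  · intro e
    have h1 := sum_evec y h.y0 (fun i => G⁻¹ i e)
    rw [← h1]
    refine Finset.sum_congr rfl fun j _ => ?_
    rw [← hιE]
  · have h1 : (fun e j => ∑ l, u l * ι l e j) = E := by
      funext e j
      exact (hιE e j).symm
    rw [h1, Fintype.linearIndependent_iff]
    intro g hg
    have h2 : G⁻¹ *ᵥ g = 0 := by
      funext i
      have h3 := congrFun hg i.succ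
      rw [Finset.sum_apply] at h3
      simp only [Pi.smul_apply, smul_eq_mul, Pi.zero_apply] at h3
      rw [Matrix.mulVec, dotProduct]
      rw [Pi.zero_apply, ← h3]
      exact Finset.sum_congr rfl fun e _ => mul_comm _ _
    have h4 : g = 0 := by
      have h5 := congrArg (fun v => G *ᵥ v) h2
      simp only [mulVec_mulVec, hGG, one_mulVec, mulVec_zero] at h5
      exact h5
    exact fun i => congrFun h4 i
  · intro l l' e e'
    have h1 : eval y (lnf (ι l e) * lnf (ι l' e') - lnf (ι l e') * lnf (ι l' e)) = 0 := by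
      refine h.ann _ ⟨?_, fun I => ?_⟩ ?_
      · exact ((lnf_hom _).mul (lnf_hom _)).sub ((lnf_hom _).mul (lnf_hom _))
      · rw [coeff_sub]
        exact K.sub_mem (coeff_mul_mem K (coeff_lnf_mem K _ (hιK _ _)) (coeff_lnf_mem K _ (hιK _ _)) I)
          (coeff_mul_mem K (coeff_lnf_mem K _ (hιK _ _)) (coeff_lnf_mem K _ (hιK _ _)) I)
      · intro p hp
        have h2 : ∀ k e'', f k e'' ((lnf (ι l e) * lnf (ι l' e') - lnf (ι l e') * lnf (ι l' e)) * p) = 0 := by
          intro k e''
          have hq : ∀ l e, (lnf (ι l e) * p).IsHomogeneous 4 := fun l e => by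
            have := (lnf_hom (ι l e)).mul hp
            exact this
          have s1 : f k e'' (lnf (ι l e) * (lnf (ι l' e') * p)) = f k e (lnf (ι l e'') * (lnf (ι l' e') * p)) :=
            hrl l k e e'' _ (hq _ _)
          have s2 : f k e (lnf (ι l' e') * (lnf (ι l e'') * p)) = f k e' (lnf (ι l' e) * (lnf (ι l e'') * p)) :=
            hrl l' k e' e _ (hq _ _)
          have s3 : f k e' (lnf (ι l e'') * (lnf (ι l' e) * p)) = f k e'' (lnf (ι l e') * (lnf (ι l' e) * p)) :=
            hrl l k e'' e' _ (hq _ _)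
          have e1 : lnf (ι l e'') * (lnf (ι l' e') * p) = lnf (ι l' e') * (lnf (ι l e'') * p) := by ring
          have e2 : lnf (ι l' e) * (lnf (ι l e'') * p) = lnf (ι l e'') * (lnf (ι l' e) * p) := by ring
          rw [sub_mul, map_sub, mul_assoc, mul_assoc, s1, e1, s2, e2, s3, sub_self]
        have h3 : G * a ((lnf (ι l e) * lnf (ι l' e') - lnf (ι l e') * lnf (ι l' e)) * p) * G⁻¹ = 0 := by
          ext k e''
          exact h2 k e''
        calc a ((lnf (ι l e) * lnf (ι l' e') - lnf (ι l e') * lnf (ι l' e)) * p)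
            = G⁻¹ * (G * a ((lnf (ι l e) * lnf (ι l' e') - lnf (ι l e') * lnf (ι l' e)) * p) * G⁻¹) * G := by
              rw [mul_assoc G, ← mul_assoc G⁻¹, hGG', one_mul, mul_assoc, hGG', mul_one]
          _ = 0 := by rw [h3, mul_zero, zero_mul]
    rw [map_sub, map_mul, map_mul, eval_lnf, eval_lnf, eval_lnf, eval_lnf, sub_eq_zero] at h1
    exact h1

end Pool.Agent.T2.H9
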